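import Pool.Agent.H69.LNN.Targets

/-!
# Row CG of the board `lnn_modules`: the Gaussian centre, scaled
-/

set_option autoImplicit false

open MeasureTheory Metric Set
open scoped ENNReal Pointwise

namespace Pool.Agent.H5.LNN

open Pool.Agent.H85.LK (E adm lam Ann)
open Pool.Agent.H69.LQ Pool.Agent.H69.LNN

theorem pf_CG (hCD : T_CD) (hCM : T_CM) : T_CG := by
  intro N Ω hN hΩ hfin hpos
  have hN0 : (0 : ℝ) < N := by
    have : 0 < N := by omega
    exact_mod_cast this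
  obtain ⟨R, hR⟩ : ∃ R : ℝ, R = 2 / Real.sqrt N := ⟨_, rfl⟩
  have hs : 0 < Real.sqrt N := Real.sqrt_pos.2 hN0
  have hR0 : 0 < R := by rw [hR]; positivity
  have hR2 : (N : ℝ) / 4 * R ^ 2 = 1 := by
    rw [hR, div_pow, Real.sq_sqrt hN0.le]
    field_simp
    norm_num
  obtain ⟨Ω', hΩ'⟩ : ∃ Ω' : Set (E N), Ω' = R⁻¹ • Ω := ⟨_, rfl⟩
  have hRΩ : R • Ω' = Ω := by rw [hΩ', smul_inv_smul₀ hR0.ne']
  have hmeas : MeasurableSet Ω' := by
    rw [hΩ']
    exact hΩ.const_smul_of_ne_zero (inv_ne_zero hR0.ne')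
  have hvol : volume Ω' = ENNReal.ofReal |R⁻¹ ^ Module.finrank ℝ (E N)| * volume Ω := by
    rw [hΩ']
    exact Measure.addHaar_smul _ _ _
  have hcp : 0 < |R⁻¹ ^ Module.finrank ℝ (E N)| := abs_pos.2 (pow_ne_zero _ (inv_ne_zero hR0.ne'))
  have hfin' : volume Ω' ≠ ⊤ := by
    rw [hvol]
    exact ENNReal.mul_ne_top ENNReal.ofReal_ne_top hfin
  have hpos' : 0 < volume Ω' := by
    rw [hvol]
    exact ENNReal.mul_pos (ENNReal.ofReal_pos.2 hcp).ne' hpos.ne'
  obtain ⟨o', ho'⟩ := hCM N Ω' hN hmeas hfin' hpos'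
  have hmom := hCD N Ω' o' hmeas hfin' ho'
  -- the scaling of the weight
  have hexp : ∀ z y : E N, Real.exp (-(N / 4) * ‖R • y - R • z‖ ^ 2) =
      Real.exp (-‖y - z‖ ^ 2) := by
    intro z y
    rw [← smul_sub, norm_smul, mul_pow, Real.norm_eq_abs, sq_abs]
    congr 1
    rw [← mul_assoc, neg_mul, hR2]
    ring
  have hcomp : ∀ g : E N → ℝ, ∫ y in Ω', g (R • y) =
      |(R ^ Module.finrank ℝ (E N))⁻¹| * ∫ x in Ω, g x := by
    intro g
    have h := Measure.setIntegral_comp_smul (μ := (volume : Measure (E N))) g Ω' hR0.ne'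
    rw [hRΩ] at h
    rw [h, smul_eq_mul]
  have hc : 0 < |(R ^ Module.finrank ℝ (E N))⁻¹| :=
    abs_pos.2 (inv_ne_zero (pow_ne_zero _ hR0.ne'))
  have hG : ∀ z : E N, ∫ y in Ω', Real.exp (-‖y - z‖ ^ 2) =
      |(R ^ Module.finrank ℝ (E N))⁻¹| *
        ∫ x in Ω, Real.exp (-(N / 4) * ‖x - R • z‖ ^ 2) := by
    intro z
    rw [← hcomp fun x => Real.exp (-(N / 4) * ‖x - R • z‖ ^ 2)]
    exact integral_congr_ae (Filter.Eventually.of_forall fun y => (hexp z y).symm)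
  refine ⟨R • o', fun z => ?_, fun i => ?_⟩
  · have h := ho' (R⁻¹ • z)
    rw [hG, hG, smul_inv_smul₀ hR0.ne'] at h
    exact le_of_mul_le_mul_left h hc
  · have h1 := hcomp fun x => (x i - (R • o') i) * Real.exp (-(N / 4) * ‖x - R • o'‖ ^ 2)
    have h2 : ∫ y in Ω', ((R • y) i - (R • o') i) * Real.exp (-(N / 4) * ‖R • y - R • o'‖ ^ 2) =
        R * ∫ y in Ω', (y i - o' i) * Real.exp (-‖y - o'‖ ^ 2) := by
      rw [← integral_const_mul]
      refine integral_congr_ae (Filter.Eventually.of_forall fun y => ?_)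
      dsimp only
      rw [hexp]
      simp only [PiLp.smul_apply, smul_eq_mul]
      ring
    rw [h2, hmom i, mul_zero] at h1
    rcases mul_eq_zero.1 h1.symm with h | h
    · exact absurd h hc.ne'
    · exact h

end Pool.Agent.H5.LNN
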