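import Pool.Agent.H69.LNN.Targets

/-!
# Row CV of the board `lnn_modules`: change of variables
-/

set_option autoImplicit false

open MeasureTheory Metric Set
open scoped ENNReal

namespace Pool.Agent.H5.LNN

open Pool.Agent.H85.LK (E adm lam Ann)
open Pool.Agent.H69.LQ Pool.Agent.H69.LNN

theorem pf_CV : T_CV := by
  intro N L c d f f' hN hc hcd hf
  have hfc : Continuous f := continuous_iff_continuousAt.2 fun x => (hf.1 x).continuousAt
  have hfc' : Continuous f' := hf.2
  obtain ⟨M, rfl⟩ : ∃ M, N = M + 3 := ⟨N - 3, by omega⟩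
  obtain ⟨m, hm⟩ : ∃ m : ℝ, m = ((M + 3 : ℕ) : ℝ) / 2 - 1 := ⟨_, rfl⟩
  have hm2 : (2 : ℝ) * m = M + 1 := by rw [hm]; push_cast; ring
  have hN1 : ((M + 3 : ℕ) : ℝ) = 2 * m + 2 := by rw [hm]; ring
  have hd : 0 < d := lt_of_lt_of_le hc hcd
  have hg : ∀ x, gx (M + 3) f x = Real.exp (m * x) * f (Real.exp x) := fun x => by
    unfold gx; rw [hm]
  have hg' : ∀ x, gx' (M + 3) f f' x = Real.exp (m * x) *
      (m * f (Real.exp x) + Real.exp x * f' (Real.exp x)) := fun x => by
    unfold gx'; rw [hm]
  have hge : gx (M + 3) f = fun x => Real.exp (m * x) * f (Real.exp x) := funext hg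
  have hge' : gx' (M + 3) f f' = fun x => Real.exp (m * x) *
      (m * f (Real.exp x) + Real.exp x * f' (Real.exp x)) := funext hg'
  have hcg : Continuous (gx (M + 3) f) := by rw [hge]; fun_prop
  have hcg' : Continuous (gx' (M + 3) f f') := by rw [hge']; fun_prop
  have hder : ∀ x, HasDerivAt (gx (M + 3) f) (gx' (M + 3) f f' x) x := by
    intro x
    rw [hge, hg']
    have h1 : HasDerivAt (fun x : ℝ => Real.exp (m * x)) (Real.exp (m * x) * m) x := by
      have := ((hasDerivAt_id x).const_mul m).exp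
      refine this.congr_deriv ?_
      simp
    have h2 : HasDerivAt (fun x : ℝ => f (Real.exp x)) (f' (Real.exp x) * Real.exp x) x :=
      (hf.1 (Real.exp x)).comp x (Real.hasDerivAt_exp x)
    refine (h1.mul h2).congr_deriv ?_
    ring
  have hT : ∀ x : ℝ, Real.exp (m * x) ^ 2 = Real.exp x ^ (M + 1) := by
    intro x
    rw [← Real.exp_nat_mul, ← Real.exp_nat_mul]
    congr 1
    push_cast
    rw [← hm2]
    ring
  have hq : ∀ x : ℝ, qx (M + 3) L x = (m + 1) ^ 2 - L * Real.exp x ^ 2 := by
    intro x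
    unfold qx
    rw [hN1, ← Real.exp_nat_mul]
    push_cast
    ring
  have hsub : ∀ g : ℝ → ℝ, Continuous g →
      ∫ r in c..d, g r = ∫ x in Real.log c..Real.log d, g (Real.exp x) * Real.exp x := by
    intro g hgc
    have h := intervalIntegral.integral_comp_mul_deriv (a := Real.log c) (b := Real.log d)
      (f := Real.exp) (f' := Real.exp) (g := g) (fun x _ => Real.hasDerivAt_exp x)
      Real.continuous_exp.continuousOn hgc
    rw [Real.exp_log hc, Real.exp_log hd] at h
    rw [← h]
    rfl
  refine ⟨hder, hcg', ?_, ?_⟩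
  · rw [show M + 3 - 1 = M + 2 by omega]
    have e1 : ∫ r in c..d, r ^ (M + 2) * (f' r ^ 2 + ((((M + 3 : ℕ) : ℝ) - 1) / r ^ 2 - L) *
        f r ^ 2) = ∫ r in c..d, (r ^ (M + 2) * f' r ^ 2 + (2 * m + 1) * (r ^ M * f r ^ 2) -
          L * (r ^ (M + 2) * f r ^ 2)) := by
      refine intervalIntegral.integral_congr fun r hr => ?_
      rw [uIcc_of_le hcd] at hr
      have hr0 : r ≠ 0 := (lt_of_lt_of_le hc hr.1).ne'
      rw [hN1]
      field_simp
      ring
    rw [e1, hsub _ (by fun_prop), ← hm]
    have hfd : ∫ x in Real.log c..Real.log d, 2 * (gx (M + 3) f x * gx' (M + 3) f f' x) =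
        gx (M + 3) f (Real.log d) ^ 2 - gx (M + 3) f (Real.log c) ^ 2 := by
      refine intervalIntegral.integral_eq_sub_of_hasDerivAt (f := fun x => gx (M + 3) f x ^ 2)
        (fun x _ => ?_) (Continuous.intervalIntegrable (by fun_prop) _ _)
      refine ((hder x).pow 2).congr_deriv ?_
      push_cast
      ring
    rw [← hfd, ← intervalIntegral.integral_const_mul, ← intervalIntegral.integral_sub]
    · refine intervalIntegral.integral_congr fun x _ => ?_
      have ht := hT x
      rw [hg, hg', hq]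
      have e2 : Real.exp x ^ M * Real.exp x = Real.exp (m * x) ^ 2 := by rw [ht, pow_succ]
      have e3 : Real.exp x ^ (M + 2) * Real.exp x = Real.exp (m * x) ^ 2 * Real.exp x ^ 2 := by
        rw [ht]; ring
      calc (Real.exp x ^ (M + 2) * f' (Real.exp x) ^ 2 +
            (2 * m + 1) * (Real.exp x ^ M * f (Real.exp x) ^ 2) -
            L * (Real.exp x ^ (M + 2) * f (Real.exp x) ^ 2)) * Real.exp x
          = (Real.exp x ^ (M + 2) * Real.exp x) * f' (Real.exp x) ^ 2 +
            (2 * m + 1) * ((Real.exp x ^ M * Real.exp x) * f (Real.exp x) ^ 2) -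
            L * ((Real.exp x ^ (M + 2) * Real.exp x) * f (Real.exp x) ^ 2) := by ring
        _ = _ := by rw [e2, e3]; ring
    · refine Continuous.intervalIntegrable ?_ _ _
      have : Continuous fun x => qx (M + 3) L x := by
        rw [show (fun x => qx (M + 3) L x) = fun x => (m + 1) ^ 2 - L * Real.exp x ^ 2 from
          funext hq]
        fun_prop
      fun_prop
    · exact Continuous.intervalIntegrable (by fun_prop) _ _
  · rw [show M + 3 - 3 = M by omega, hsub _ (by fun_prop)]
    refine intervalIntegral.integral_congr fun x _ => ?_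
    rw [hg, mul_pow, hT x]
    ring

end Pool.Agent.H5.LNN
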