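import Pool.Agent.H69.LNN.Targets

/-!
# Row HY of the board `lnn_modules`: Hardy's inequality on a ray
-/

set_option autoImplicit false

open MeasureTheory Metric Set
open scoped ENNReal

namespace Pool.Agent.H5.LNN

open Pool.Agent.H85.LK (E adm lam Ann)
open Pool.Agent.H69.LQ Pool.Agent.H69.LNN

theorem C1_cont {f f' : ℝ → ℝ} (hf : C1 f f') : Continuous f :=
  continuous_iff_continuousAt.2 fun x => (hf.1 x).continuousAt

theorem pf_HY : T_HY := by
  intro N c f f' hN hc hf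
  obtain ⟨M, rfl⟩ : ∃ M, N = M + 3 := ⟨N - 3, by omega⟩
  have hfc := C1_cont hf
  have hfc' : Continuous f' := hf.2
  rw [show M + 3 - 3 = M by omega, show M + 3 - 2 = M + 1 by omega,
    show M + 3 - 1 = M + 2 by omega]
  obtain ⟨m, hm⟩ : ∃ m : ℝ, m = ((M + 3 : ℕ) : ℝ) / 2 - 1 := ⟨_, rfl⟩
  have hm2 : (2 : ℝ) * m = M + 1 := by rw [hm]; push_cast; ring
  have hN1 : ((M + 3 : ℕ) : ℝ) = 2 * m + 2 := by rw [hm]; ring
  rw [← hm]
  -- the integrand
  have e1 : ∫ r in (0 : ℝ)..c, r ^ (M + 2) * (f' r ^ 2 + (((M + 3 : ℕ) : ℝ) - 1) / r ^ 2 * f r ^ 2) =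
      ∫ r in (0 : ℝ)..c, (r ^ (M + 2) * f' r ^ 2 + (2 * m + 1) * (r ^ M * f r ^ 2)) := by
    refine intervalIntegral.integral_congr_ae (Filter.Eventually.of_forall fun r hr => ?_)
    rw [uIoc_of_le hc.le] at hr
    have hr0 : r ≠ 0 := hr.1.ne'
    rw [hN1]
    field_simp
    ring
  -- the derivative
  have hd : ∀ r : ℝ, HasDerivAt (fun r => r ^ (M + 1) * f r ^ 2)
      (2 * m * (r ^ M * f r ^ 2) + 2 * (r ^ (M + 1) * (f r * f' r))) r := by
    intro r
    have h1 := (hasDerivAt_pow (M + 1) r).mul ((hf.1 r).pow 2)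
    refine h1.congr_deriv ?_
    rw [hm2, show (f ^ 2) r = f r ^ 2 from rfl]
    push_cast
    ring
  have hint : ∫ r in (0 : ℝ)..c, (2 * m * (r ^ M * f r ^ 2) +
      2 * (r ^ (M + 1) * (f r * f' r))) = c ^ (M + 1) * f c ^ 2 := by
    rw [intervalIntegral.integral_eq_sub_of_hasDerivAt (fun r _ => hd r)
      (Continuous.intervalIntegrable (by fun_prop) _ _)]
    rw [zero_pow (by omega), zero_mul, sub_zero]
  have hpos : 0 ≤ ∫ r in (0 : ℝ)..c, r ^ M * (r * f' r + m * f r) ^ 2 := by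
    refine intervalIntegral.integral_nonneg hc.le fun r hr => ?_
    have := hr.1
    positivity
  have e2 : ∫ r in (0 : ℝ)..c, r ^ M * (r * f' r + m * f r) ^ 2 =
      (∫ r in (0 : ℝ)..c, (r ^ (M + 2) * f' r ^ 2 + (2 * m + 1) * (r ^ M * f r ^ 2))) +
      m * (∫ r in (0 : ℝ)..c, (2 * m * (r ^ M * f r ^ 2) + 2 * (r ^ (M + 1) * (f r * f' r)))) -
      (m + 1) ^ 2 * ∫ r in (0 : ℝ)..c, r ^ M * f r ^ 2 := by
    rw [← intervalIntegral.integral_const_mul, ← intervalIntegral.integral_const_mul,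
      ← intervalIntegral.integral_add, ← intervalIntegral.integral_sub]
    · refine intervalIntegral.integral_congr fun r _ => ?_
      ring
    all_goals exact Continuous.intervalIntegrable (by fun_prop) _ _
  rw [hint] at e2
  rw [e1]
  have e3 : ((M + 3 : ℕ) : ℝ) ^ 2 / 4 = (m + 1) ^ 2 := by rw [hN1]; ring
  rw [e3]
  linarith

end Pool.Agent.H5.LNN
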